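import Pool.Agent.Q215.SR.Main2
import Pool.Agent.Q210.SR.Wadge
import Pool.Agent.Q210.SR.Transfer
import Pool.Agent.Q254.SR.Vaught
import Pool.Agent.Q254.SR.Univ
import Pool.Agent.Q215.SR.Surj
import Pool.Agent.Q215.SR.Diag
import Pool.Agent.Q215.SR.Fun

/-!
# The separation rank is the only rank on the bounded Baire class `ξ` functions

For every `2 ≤ ξ < ω₁` every rank on the bounded Baire class `ξ` functions on Polish spaces with
the properties 1-4 (characteristic functions, essential linearity, uniform limits, Lipschitz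
compositions) is essentially equal to the separation rank `α_ξ`; property 5 (restrictions to
`Π⁰₂` subsets) is not needed. The definitions are in `Pool/Agent/Q215/SR/Defs.lean`.
-/

set_option autoImplicit false

open Ordinal

namespace Pool.Agent.Results.MP_106504_lc.SeparationRankIsUnique

open Pool.Agent.Q215.SR

/-- Every rank with the properties 1-4 is essentially equal to the separation rank, for every
`2 ≤ ξ < ω₁`; moreover the separation rank of a bounded Baire class `ξ` function is countable. -/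
theorem result (ξ : Ordinal.{0}) (hξ : 2 ≤ ξ) (hξ' : ξ < ω_ 1) (ρ : RankFamily)
    (hρ : IsRank ξ ρ) (h1 : P1 ξ ρ) (h2 : P2 ξ ρ) (h3 : P3 ξ ρ) (h4 : P4 ξ ρ)
    (X : Type) [TopologicalSpace X] [PolishSpace X] (f : X → ℝ) (hf : IsBddBaire ξ f) :
    Approx (ρ X f) (alpha ξ f) ∧ alpha ξ f < ω_ 1 := by
  have hD : Dich := dich Pool.Agent.Q210.SR.t_wadge Pool.Agent.Q215.SR.t_surj
    Pool.Agent.Q254.SR.t_vaught Pool.Agent.Q210.SR.t_transfer Pool.Agent.Q254.SR.t_univ
    Pool.Agent.Q215.SR.t_diag
  have hξ1 : 1 ≤ ξ := one_le_two.trans hξ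
  have hA := main hD (Pool.Agent.Q215.SR.t_fun t_cls) ξ hξ1 hξ' ρ h1 h2 h3 h4 X f hf
  refine ⟨hA, ?_⟩
  have k1 : max 1 (ρ X f) < ω_ 1 := max_lt ((one_lt_omega0).trans omega0_lt_omega_one) (hρ X f hf)
  refine lt_of_le_of_lt (hA.2 (max 1 (ρ X f)) (le_max_left _ _) k1 ?_) (opow_lt_omega_one k1)
  exact (le_max_right _ _).trans (right_le_opow _ one_lt_omega0)

end Pool.Agent.Results.MP_106504_lc.SeparationRankIsUnique
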